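import Pool.Agent.H525.PV.Stm

set_option autoImplicit false

/-! # The number of the roots of a polynomial modulo a prime ideal (statement `S_RT` of helper525) -/

namespace Pool.Agent.H675.PV

open Finset NumberField Filter Polynomial
open Pool.Agent.H525.PV

theorem t_RT : S_RT := by
  intro K _ _ f hf P hP hP0
  obtain ⟨z, hz⟩ := hf P hP hP0
  have hmax : P.IsMaximal := hP.isMaximal hP0
  have hdom : IsDomain (𝓞 K ⧸ P) := Ideal.Quotient.isDomain P
  have hfin : Finite (𝓞 K ⧸ P) := Ideal.finiteQuotientOfFreeOfNeBot P hP0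
  have hev : (f.map (Ideal.Quotient.mk P)).eval (Ideal.Quotient.mk P z) ≠ 0 := by
    rw [Polynomial.eval_map, Polynomial.eval₂_hom]
    intro h
    exact hz (Ideal.Quotient.eq_zero_iff_mem.mp h)
  have hne : f.map (Ideal.Quotient.mk P) ≠ 0 := by
    intro h
    apply hev
    rw [h, Polynomial.eval_zero]
  refine ⟨?_, ?_⟩
  · classical
    have h1 : rt f P ≤ (f.map (Ideal.Quotient.mk P)).roots.toFinset.card := by
      unfold rt
      have hm : ∀ r : {r : 𝓞 K ⧸ P // (f.map (Ideal.Quotient.mk P)).eval r = 0},
          r.1 ∈ (f.map (Ideal.Quotient.mk P)).roots.toFinset := by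
        intro r
        rw [Multiset.mem_toFinset, Polynomial.mem_roots hne]
        exact r.2
      have h2 : Nat.card {r : 𝓞 K ⧸ P // (f.map (Ideal.Quotient.mk P)).eval r = 0} ≤
          Nat.card ((f.map (Ideal.Quotient.mk P)).roots.toFinset : Finset (𝓞 K ⧸ P)) := by
        refine Nat.card_le_card_of_injective (fun r => ⟨r.1, hm r⟩) ?_
        intro a b hab
        have h3 := congrArg Subtype.val hab
        exact Subtype.ext h3
      have h4 : Nat.card ((f.map (Ideal.Quotient.mk P)).roots.toFinset : Finset (𝓞 K ⧸ P)) =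
          (f.map (Ideal.Quotient.mk P)).roots.toFinset.card := Nat.card_eq_card_toFinset _ |>.trans (by simp)
      rw [h4] at h2
      exact h2
    exact h1.trans ((Multiset.toFinset_card_le _).trans
      ((Polynomial.card_roots' _).trans Polynomial.natDegree_map_le))
  · unfold rt
    rw [Ideal.absNorm_apply, Submodule.cardQuot_apply]
    exact Finite.card_subtype_lt (p := fun r => (f.map (Ideal.Quotient.mk P)).eval r = 0) hev

end Pool.Agent.H675.PV
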